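import Pool.Agent.helper93.GS.Limits

open Filter Pool.Agent.helper93.GS

/-- Asymptotic bounds for the counting function of the greedy sequence that avoids sums of two
or three consecutive terms. -/
theorem Pool.Agent.Results.MP_a0eb8a_nt.AsymptoticBounds.result :
    (∃! a : ℕ → ℕ, IsGreedy a) ∧ ∀ a : ℕ → ℕ, IsGreedy a →
      (∀ n : ℕ, 509 / 1134 * (n : ℝ) - 20 * (Nat.log 64 n + 1) ≤ count a n ∧
        (count a n : ℝ) ≤ 125 / 189 * n + 10 * (Nat.log 64 n + 1)) ∧
      509 / 1134 ≤ liminf (fun n : ℕ => (count a n : ℝ) / n) atTop ∧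
      limsup (fun n : ℕ => (count a n : ℝ) / n) atTop ≤ 125 / 189 :=
  ⟨⟨gseq, gseq_isGreedy, fun _ hb => isGreedy_unique hb gseq_isGreedy⟩,
    fun _ h => ⟨fun n => ⟨lower h n, upper h n⟩, le_liminf h, limsup_le h⟩⟩
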