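import Pool.Agent.helper93.GS.Range

open Filter Topology Pool.Agent.helper93.GS

/-- The lower density of the greedy sequence that avoids sums of two or three consecutive terms
is at most `59 / 90`, its upper density is at least `6 / 11`, and its density, if it exists, lies
between these two numbers. -/
theorem Pool.Agent.Results.MP_a0eb8a_nt.LowerDensity.result (a : ℕ → ℕ) (h : IsGreedy a) :
    liminf (fun n : ℕ => (count a n : ℝ) / n) atTop ≤ 59 / 90 ∧
      6 / 11 ≤ limsup (fun n : ℕ => (count a n : ℝ) / n) atTop ∧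
      ∀ δ : ℝ, Tendsto (fun n : ℕ => (count a n : ℝ) / n) atTop (𝓝 δ) →
        6 / 11 ≤ δ ∧ δ ≤ 59 / 90 :=
  ⟨liminf_le h, le_limsup h, fun _ hδ => ⟨density_lower h hδ, density_upper h hδ⟩⟩
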