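import Pool.Agent.GreedyCons.Main
import Pool.Agent.GreedyCons.Cert

open Filter Pool.Agent.GreedyCons

namespace Pool.Agent.Results.MP_a0eb8a_nt.NotThreeFifths

theorem indIff (a : ℕ → ℕ) (m : ℕ) : ind a m = true ↔ ∃ n, a n = m :=
  @decide_eq_true_iff (∃ n, a n = m) (Classical.propDecidable _)

theorem harm (N : ℕ) : ∑ m ∈ Finset.range N, 1 / ((m : ℝ) + 1) ≤ 1 + Real.log N := by
  have h := harmonic_le_one_add_log N
  have h2 : ((harmonic N : ℚ) : ℝ) = ∑ m ∈ Finset.range N, 1 / ((m : ℝ) + 1) := by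
    rw [harmonic]
    push_cast
    refine Finset.sum_congr rfl fun m _ => ?_
    rw [one_div]
  rw [h2] at h
  exact h

theorem harm_nonneg (N : ℕ) : 0 ≤ ∑ m ∈ Finset.range N, 1 / ((m : ℝ) + 1) :=
  Finset.sum_nonneg fun m _ => by positivity

theorem logBound {a : ℕ → ℕ} (ha : IsGreedy a) : ∃ C : ℝ, ∀ N : ℕ,
    ∑ m ∈ Finset.range N, (if ind a m = true then (1 : ℝ) else 0) / ((m : ℝ) + 1) ≤
      1199 / 2000 * ∑ m ∈ Finset.range N, 1 / ((m : ℝ) + 1) + C := by
  obtain ⟨ν, hν, h⟩ := pointwise tabs (self_of_greedy ha) (by norm_num [tabs]) cE cAD7 cAD8 cAD11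
    certA certB certD certM
  obtain ⟨C, hC⟩ := log_of_nul (ind a) _ ν hν 200 h
  refine ⟨C, fun N => (hC N).trans ?_⟩
  have hc : (tabs.CC : ℝ) / (tabs.K : ℝ) ≤ 1199 / 2000 := by norm_num [tabs]
  have := mul_le_mul_of_nonneg_right hc (harm_nonneg N)
  linarith

/-- The greedy sequence that avoids sums of two or three consecutive terms does not have density
`3 / 5`: its upper logarithmic density is at most `1199 / 2000 = 0.5995`. -/
theorem result :
    (∃! a : ℕ → ℕ, IsGreedy a) ∧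
    ∀ a : ℕ → ℕ, IsGreedy a →
      ¬ Tendsto (fun x : ℝ => (cnt a x : ℝ) / x) atTop (nhds (3 / 5)) ∧
      (∀ δ : ℝ, Tendsto (fun x : ℝ => (cnt a x : ℝ) / x) atTop (nhds δ) → δ ≤ 1199 / 2000) ∧
      (∀ d : ℝ, 1199 / 2000 < d → ∃ᶠ x : ℝ in atTop, (cnt a x : ℝ) / x < d) ∧
      ∃ C : ℝ, ∀ N : ℕ,
        ∑ m ∈ Finset.range N, Set.indicator (Set.range a) (fun m : ℕ => 1 / ((m : ℝ) + 1)) m ≤
          1199 / 2000 * Real.log N + C := by
  refine ⟨existsUnique_greedy, fun a ha => ?_⟩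
  have hb := logBound ha
  have hm := ha.strictMono
  refine ⟨not_tendsto a hm _ hb _ (by norm_num), ?_, fun d hd => freq_of_log a hm _ hb d hd, ?_⟩
  · intro δ hδ
    by_contra hcon
    exact not_tendsto a hm _ hb δ (not_le.mp hcon) hδ
  · obtain ⟨C, hC⟩ := hb
    refine ⟨1199 / 2000 + C, fun N => ?_⟩
    have h1 := hC N
    have h2 := harm N
    have h3 : ∑ m ∈ Finset.range N, Set.indicator (Set.range a) (fun m : ℕ => 1 / ((m : ℝ) + 1)) m =
        ∑ m ∈ Finset.range N, (if ind a m = true then (1 : ℝ) else 0) / ((m : ℝ) + 1) := by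
      refine Finset.sum_congr rfl fun m _ => ?_
      by_cases hx : ∃ n, a n = m
      · have hi : ind a m = true := (indIff a m).mpr hx
        rw [Set.indicator_of_mem (show m ∈ Set.range a from hx), if_pos hi]
      · have hi : ¬ ind a m = true := fun h => hx ((indIff a m).mp h)
        rw [Set.indicator_of_notMem (show m ∉ Set.range a from hx), if_neg hi, zero_div]
    rw [h3]
    linarith

end Pool.Agent.Results.MP_a0eb8a_nt.NotThreeFifths
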